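import Pool.Agent.Q263.HR.Abs

/-!
# Jobs HR-LIN and HR-SHAD (project HR of helper263, row MP_e3ee0c_gt)
-/

set_option autoImplicit false

open Filter Topology

namespace Q263.HR

namespace Sys

variable {X F : Type*} [MetricSpace X] [NormedAddCommGroup F] [NormedSpace ℝ F]

/-- angle bound with zero flow component -/
theorem angle0 (S : Sys X F) {x : X} (hx : x ∈ S.Λ) {s u : F} (hs : s ∈ S.Vs x)
    (hu : u ∈ S.Vu x) : ‖s‖ ≤ S.K * ‖s + u‖ ∧ ‖u‖ ≤ S.K * ‖s + u‖ := by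
  have h := S.angle x hx s hs u hu 0
  simp only [zero_smul, add_zero] at h
  exact ⟨h.1, h.2.1⟩

theorem lin (S : Sys X F) : S.Lin := by
  have hK := S.one_le_K
  have hL := S.one_le_L
  have hK0 : 0 < S.K := by linarith
  have hL0 : 0 < S.L := by linarith
  have hKL : 1 ≤ S.K * S.L := by nlinarith
  have hK2L : 1 ≤ S.K ^ 2 * S.L := by nlinarith
  have hden : 0 < 64 * S.K ^ 2 * S.L := by positivity
  obtain ⟨η, hηdef⟩ : ∃ η : ℝ, η = 1 / (64 * S.K ^ 2 * S.L) := ⟨_, rfl⟩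
  have hη0 : 0 < η := by rw [hηdef]; positivity
  have hηeq : η * (S.K ^ 2 * S.L) = 1 / 64 := by
    rw [hηdef]; field_simp
  have hη1 : η ≤ 1 / 64 := by nlinarith
  obtain ⟨r4, hr4, H4⟩ := S.H4 η hη0
  obtain ⟨r5, hr5, H5⟩ := S.H5 η hη0
  refine ⟨η, hη0, min r4 r5, lt_min hr4 hr5, ?_⟩
  intro ι _ σ p hp hd ζ s u hs hu h1 h2
  by_contra hne
  push Not at hne
  obtain ⟨i0, hi0⟩ := hne
  have : Nonempty ι := ⟨i0⟩
  obtain ⟨j, hj⟩ := Finite.exists_max (fun i => ‖ζ i‖)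
  obtain ⟨m, hm⟩ : ∃ m : ℝ, m = ‖ζ j‖ := ⟨_, rfl⟩
  have hm0 : 0 < m := by
    rw [hm]
    exact lt_of_lt_of_le (norm_pos_iff.mpr hi0) (hj i0)
  have hle : ∀ i, ‖ζ i‖ ≤ m := fun i => by rw [hm]; exact hj i
  have hsum : ∀ i, ‖s i + u i‖ ≤ (1 + η) * m := by
    intro i
    have := norm_sub_norm_le (s i + u i) (ζ i)
    have h3 := h1 i
    rw [norm_sub_rev] at h3
    have h4 := hle i
    nlinarith [mul_le_mul_of_nonneg_left h4 hη0.le]
  have hsb : ∀ i, ‖s i‖ ≤ S.K * ((1 + η) * m) := fun i =>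
    (S.angle0 (hp i) (hs i) (hu i)).1.trans (mul_le_mul_of_nonneg_left (hsum i) hK0.le)
  have hub : ∀ i, ‖u i‖ ≤ S.K * ((1 + η) * m) := fun i =>
    (S.angle0 (hp i) (hs i) (hu i)).2.trans (mul_le_mul_of_nonneg_left (hsum i) hK0.le)
  have hDs : ∀ i, ‖S.D (p i) (s i)‖ ≤ (1 + η) * m / 16 := by
    intro i
    have h3 := S.contrS (p i) (hp i) (s i) (hs i)
    have h4 := mul_le_mul_of_nonneg_left (hsb i) S.θ_nonneg
    have h5 : S.θ * (S.K * ((1 + η) * m)) ≤ 1 / 16 * ((1 + η) * m) := by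
      have : S.θ * (S.K * ((1 + η) * m)) = (S.K * S.θ) * ((1 + η) * m) := by ring
      rw [this]
      exact mul_le_mul_of_nonneg_right S.Kθ (by positivity)
    linarith
  have hDu : ∀ i, ‖S.D (p i) (u i)‖ ≤ S.L * (S.K * ((1 + η) * m)) := by
    intro i
    have h3 := S.boundD (p i) (hp i) 0 (Submodule.zero_mem _) (u i) (hu i)
    rw [zero_add] at h3
    exact h3.trans (mul_le_mul_of_nonneg_left (hub i) hL0.le)
  have hstep : ∀ i, ∃ s' ∈ S.Vs (p (σ i)), ∃ u' ∈ S.Vu (p (σ i)),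
      ‖S.D (p i) (s i) - s'‖ ≤ η * ‖S.D (p i) (s i)‖ ∧
      ‖S.D (p i) (u i) - u'‖ ≤ η * ‖S.D (p i) (u i)‖ ∧
      ‖s (σ i) - s'‖ ≤ m / 16 ∧ ‖u (σ i) - u'‖ ≤ m / 16 := by
    intro i
    obtain ⟨s', hs', hs'b⟩ := H5 (S.g (p i)) (S.mapΛ _ (hp i)) (p (σ i)) (hp _)
      (lt_of_lt_of_le (hd i) (min_le_right _ _)) _ (S.mapS _ (hp i) _ (hs i))
    obtain ⟨u', hu', hu'b⟩ := H4 (S.g (p i)) (S.mapΛ _ (hp i)) (p (σ i)) (hp _)
      (lt_of_lt_of_le (hd i) (min_le_left _ _)) _ (S.mapU _ (hp i) _ (hu i))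
    have hN : ‖(s (σ i) - s') + (u (σ i) - u')‖ ≤ 4 * η * S.L * S.K * m := by
      have e1 : (s (σ i) - s') + (u (σ i) - u') =
          ((s (σ i) + u (σ i)) - ζ (σ i)) + (ζ (σ i) - S.D (p i) (s i + u i))
            + (S.D (p i) (s i) - s') + (S.D (p i) (u i) - u') := by
        rw [map_add]; abel
      rw [e1]
      have n1 := norm_add_le (((s (σ i) + u (σ i)) - ζ (σ i)) + (ζ (σ i) - S.D (p i) (s i + u i))
            + (S.D (p i) (s i) - s')) (S.D (p i) (u i) - u')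
      have n2 := norm_add_le (((s (σ i) + u (σ i)) - ζ (σ i)) +
        (ζ (σ i) - S.D (p i) (s i + u i))) (S.D (p i) (s i) - s')
      have n3 := norm_add_le ((s (σ i) + u (σ i)) - ζ (σ i)) (ζ (σ i) - S.D (p i) (s i + u i))
      have n4 : ‖(s (σ i) + u (σ i)) - ζ (σ i)‖ ≤ η * m := by
        rw [norm_sub_rev]
        exact (h1 (σ i)).trans (mul_le_mul_of_nonneg_left (hle _) hη0.le)
      have n5 : ‖ζ (σ i) - S.D (p i) (s i + u i)‖ ≤ η * m :=
        (h2 i).trans (mul_le_mul_of_nonneg_left (hle _) hη0.le)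
      have n6 : ‖S.D (p i) (s i) - s'‖ ≤ η * ((1 + η) * m / 16) :=
        hs'b.trans (mul_le_mul_of_nonneg_left (hDs i) hη0.le)
      have n7 : ‖S.D (p i) (u i) - u'‖ ≤ η * (S.L * (S.K * ((1 + η) * m))) :=
        hu'b.trans (mul_le_mul_of_nonneg_left (hDu i) hη0.le)
      have a1 : (1 + η) * m ≤ 65 / 64 * m := by nlinarith
      have a2 : η * ((1 + η) * m / 16) ≤ η * (m / 2) := by
        apply mul_le_mul_of_nonneg_left _ hη0.le
        linarith
      have a3 : η * (S.L * (S.K * ((1 + η) * m))) ≤ 65 / 64 * (η * (S.L * S.K) * m) := by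
        have : η * (S.L * (S.K * ((1 + η) * m))) ≤ η * (S.L * (S.K * (65 / 64 * m))) := by
          gcongr
        linarith
      have a4 : η * m ≤ η * (S.L * S.K) * m := by
        have : η * m * 1 ≤ η * m * (S.K * S.L) :=
          mul_le_mul_of_nonneg_left hKL (by positivity)
        linarith
      have a5 : 0 ≤ η * (S.L * S.K) * m := by positivity
      have a6 : 4 * η * S.L * S.K * m = 4 * (η * (S.L * S.K) * m) := by ring
      rw [a6]
      linarith
    have hang := S.angle0 (hp (σ i)) ((S.Vs (p (σ i))).sub_mem (hs (σ i)) hs')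
      ((S.Vu (p (σ i))).sub_mem (hu (σ i)) hu')
    have hKN : S.K * ‖(s (σ i) - s') + (u (σ i) - u')‖ ≤ m / 16 := by
      have := mul_le_mul_of_nonneg_left hN hK0.le
      have e2 : S.K * (4 * η * S.L * S.K * m) = 4 * (η * (S.K ^ 2 * S.L)) * m := by ring
      rw [e2, hηeq] at this
      linarith
    exact ⟨s', hs', u', hu', hs'b, hu'b, hang.1.trans hKN, hang.2.trans hKN⟩
  -- the stable part
  have hsj : ‖s j‖ ≤ (1 + η) * ((1 + η) * m / 16) + m / 16 := by
    obtain ⟨s', -, u', -, b1, -, b3, -⟩ := hstep (σ.symm j)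
    rw [Equiv.apply_symm_apply] at b3
    have c1 := norm_sub_norm_le (s j) s'
    have c2 := norm_sub_norm_le s' (S.D (p (σ.symm j)) (s (σ.symm j)))
    rw [norm_sub_rev] at b1
    have c3 := hDs (σ.symm j)
    have c4 := mul_le_mul_of_nonneg_left c3 hη0.le
    linarith
  have huj : ‖u j‖ ≤ 70 / 63 / 16 * m := by
    obtain ⟨s', -, u', -, -, b2, -, b4⟩ := hstep j
    have c1 := norm_sub_norm_le u' (u (σ j))
    rw [norm_sub_rev] at b4
    have c2 := norm_sub_norm_le (S.D (p j) (u j)) u'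
    have c3 := hub (σ j)
    have c4 : (1 - η) * ‖S.D (p j) (u j)‖ ≤ S.K * ((1 + η) * m) + m / 16 := by
      linarith
    have c5 : S.K * ((1 + η) * m) ≤ 65 / 64 * (S.K * m) := by
      have : S.K * ((1 + η) * m) ≤ S.K * (65 / 64 * m) := by
        apply mul_le_mul_of_nonneg_left _ hK0.le
        nlinarith
      linarith
    have c6 : m ≤ S.K * m := by nlinarith
    have c7 : 63 / 64 * ‖S.D (p j) (u j)‖ ≤ (1 - η) * ‖S.D (p j) (u j)‖ :=
      mul_le_mul_of_nonneg_right (by linarith) (norm_nonneg _)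
    have c8 : ‖S.D (p j) (u j)‖ ≤ 70 / 63 * (S.K * m) := by linarith
    have c9 := S.contrU (p j) (hp j) (u j) (hu j)
    have c10 := mul_le_mul_of_nonneg_left c8 S.θ_nonneg
    have c11 : S.θ * (70 / 63 * (S.K * m)) ≤ 70 / 63 / 16 * m := by
      have : S.θ * (70 / 63 * (S.K * m)) = (S.K * S.θ) * (70 / 63 * m) := by ring
      rw [this]
      have := mul_le_mul_of_nonneg_right S.Kθ (show (0:ℝ) ≤ 70 / 63 * m by positivity)
      linarith
    linarith
  have hfin : m ≤ ‖s j‖ + ‖u j‖ + η * m := by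
    have c1 := norm_sub_norm_le (ζ j) (s j + u j)
    have c2 := h1 j
    have c3 := norm_add_le (s j) (u j)
    rw [← hm] at c1 c2
    linarith
  have q1 : (1 + η) * ((1 + η) * m / 16) ≤ 65 / 64 * (65 / 64 * m / 16) := by
    gcongr <;> linarith
  have q2 : η * m ≤ 1 / 64 * m := mul_le_mul_of_nonneg_right hη1 hm0.le
  linarith

theorem shad [CompleteSpace X] (S : Sys X F) (h : S.Corr) : S.Shad := by
  obtain ⟨ρ, hρ, H⟩ := h
  intro η hη
  have hK := S.one_le_K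
  have hK0 : 0 < S.K := by linarith
  have hmin : 0 < min ρ η := lt_min hρ hη
  obtain ⟨δ, hδdef⟩ : ∃ δ : ℝ, δ = min ρ η / (8 * S.K) := ⟨_, rfl⟩
  have hδ0 : 0 < δ := by rw [hδdef]; positivity
  have hδK : 8 * S.K * δ = min ρ η := by rw [hδdef]; field_simp
  have hδle : 8 * δ ≤ min ρ η := by
    rw [← hδK]; nlinarith
  have hδρ : δ < ρ := by
    have := min_le_left ρ η
    linarith
  refine ⟨δ, hδ0, ?_⟩
  intro ι σ p hp hd
  -- the invariant
  let P : ℕ → (ι → X) × (ι → ℝ) → Prop := fun k a =>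
    (∀ i, dist (p i) (a.1 i) ≤ 4 * S.K * δ * (1 - 1 / 2 ^ k)) ∧
    (∀ i, |a.2 i| ≤ 4 * S.K * δ * (1 - 1 / 2 ^ k)) ∧
    (∀ i, dist (S.Φ (a.2 i) (S.g (a.1 i))) (a.1 (σ i)) ≤ δ / 2 ^ k)
  have hP0 : P 0 (p, fun _ => 0) := by
    refine ⟨fun i => ?_, fun i => ?_, fun i => ?_⟩
    · simp
    · simp
    · simp only [S.Φzero, pow_zero, div_one]
      exact (hd i).le
  have hbd : ∀ k : ℕ, 4 * S.K * δ * (1 - 1 / 2 ^ k) < min ρ η := by
    intro k
    have h1 : (0:ℝ) < 1 / 2 ^ k := by positivity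
    have h2 : 4 * S.K * δ * (1 - 1 / 2 ^ k) ≤ 4 * S.K * δ * 1 := by
      apply mul_le_mul_of_nonneg_left (by linarith) (by positivity)
    linarith
  have hstep : ∀ k a, P k a → ∃ b, P (k + 1) b ∧
      (∀ i, dist (a.1 i) (b.1 i) ≤ 2 * S.K * (δ / 2 ^ k)) ∧
      (∀ i, |b.2 i - a.2 i| ≤ 2 * S.K * (δ / 2 ^ k)) := by
    intro k a ha
    obtain ⟨a1, a2, a3⟩ := ha
    have hek : δ / 2 ^ k ≤ δ := by
      apply div_le_self hδ0.le
      exact one_le_pow₀ (by norm_num)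
    obtain ⟨y', τ', b1, b2, b3⟩ := H ι σ p (δ / 2 ^ k) a.1 a.2 hp
      (fun i => (hd i).trans hδρ) (by positivity) (lt_of_le_of_lt hek hδρ)
      (fun i => lt_of_le_of_lt (a1 i) ((hbd k).trans_le (min_le_left _ _)))
      (fun i => lt_of_le_of_lt (a2 i) ((hbd k).trans_le (min_le_left _ _))) a3
    have hgeo : 4 * S.K * δ * (1 - 1 / 2 ^ k) + 2 * S.K * (δ / 2 ^ k)
        = 4 * S.K * δ * (1 - 1 / 2 ^ (k + 1)) := by
      rw [pow_succ]
      field_simp
      ring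
    refine ⟨(y', τ'), ⟨fun i => ?_, fun i => ?_, fun i => ?_⟩, b1, b2⟩
    · have := dist_triangle (p i) (a.1 i) (y' i)
      have h1 := a1 i
      have h2 := b1 i
      simp only
      linarith
    · have h1 := a2 i
      have h2 := b2 i
      have h3 : |τ' i| ≤ |τ' i - a.2 i| + |a.2 i| := by
        have := abs_add_le (τ' i - a.2 i) (a.2 i)
        rwa [sub_add_cancel] at this
      simp only
      linarith
    · have h1 := b3 i
      have h2 : δ / 2 ^ k / 2 = δ / 2 ^ (k + 1) := by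
        rw [pow_succ]; field_simp
      rw [h2] at h1
      exact h1
  choose! nxt hn1 hn2 hn3 using hstep
  let q : ℕ → (ι → X) × (ι → ℝ) := fun k => Nat.rec (p, fun _ => 0) (fun k a => nxt k a) k
  have hq0 : q 0 = (p, fun _ => 0) := rfl
  have hqs : ∀ k, q (k + 1) = nxt k (q k) := fun k => rfl
  have hqP : ∀ k, P k (q k) := by
    intro k
    induction k with
    | zero => rw [hq0]; exact hP0
    | succ k ih => rw [hqs]; exact hn1 k _ ih
  have hd1 : ∀ i k, dist ((q k).1 i) ((q (k + 1)).1 i) ≤ 4 * S.K * δ / 2 / 2 ^ k := by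
    intro i k
    have h1 := hn2 k (q k) (hqP k) i
    rw [hqs]
    have e : 4 * S.K * δ / 2 / 2 ^ k = 2 * S.K * (δ / 2 ^ k) := by
      field_simp; ring
    rw [e]; exact h1
  have hd2 : ∀ i k, dist ((q k).2 i) ((q (k + 1)).2 i) ≤ 4 * S.K * δ / 2 / 2 ^ k := by
    intro i k
    have h1 := hn3 k (q k) (hqP k) i
    rw [hqs, Real.dist_eq, abs_sub_comm]
    have e : 4 * S.K * δ / 2 / 2 ^ k = 2 * S.K * (δ / 2 ^ k) := by
      field_simp; ring
    rw [e]; exact h1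
  have hy : ∀ i, ∃ z, Tendsto (fun k => (q k).1 i) atTop (𝓝 z) := fun i =>
    cauchySeq_tendsto_of_complete (cauchySeq_of_le_geometric_two (hd1 i))
  have ht : ∀ i, ∃ z, Tendsto (fun k => (q k).2 i) atTop (𝓝 z) := fun i =>
    cauchySeq_tendsto_of_complete (cauchySeq_of_le_geometric_two (hd2 i))
  choose y hy using hy
  choose τ hτ using ht
  have hhalf : 4 * S.K * δ < min ρ η := by linarith
  have hall : ∀ k : ℕ, 4 * S.K * δ * (1 - 1 / 2 ^ k) ≤ 4 * S.K * δ := by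
    intro k
    have h1 : (0:ℝ) < 1 / 2 ^ k := by positivity
    have h2 : 4 * S.K * δ * (1 - 1 / 2 ^ k) ≤ 4 * S.K * δ * 1 := by
      apply mul_le_mul_of_nonneg_left (by linarith) (by positivity)
    linarith
  refine ⟨y, τ, fun i => ?_, fun i => ?_, fun i => ?_⟩
  · have h1 : Tendsto (fun k => dist (p i) ((q k).1 i)) atTop (𝓝 (dist (p i) (y i))) :=
      tendsto_const_nhds.dist (hy i)
    have h2 : dist (p i) (y i) ≤ 4 * S.K * δ :=
      le_of_tendsto h1 (Eventually.of_forall fun k => ((hqP k).1 i).trans (hall k))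
    exact lt_of_le_of_lt h2 (hhalf.trans_le (min_le_right _ _))
  · have h1 : Tendsto (fun k => |(q k).2 i|) atTop (𝓝 |τ i|) := (hτ i).abs
    have h2 : |τ i| ≤ 4 * S.K * δ :=
      le_of_tendsto h1 (Eventually.of_forall fun k => ((hqP k).2.1 i).trans (hall k))
    exact lt_of_le_of_lt h2 (hhalf.trans_le (min_le_right _ _))
  · have hc : Tendsto (fun k => S.Φ ((q k).2 i) (S.g ((q k).1 i))) atTop
        (𝓝 (S.Φ (τ i) (S.g (y i)))) := by
      have h1 : Tendsto (fun k => (((q k).2 i, S.g ((q k).1 i)) : ℝ × X)) atTop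
          (𝓝 (τ i, S.g (y i))) :=
        (hτ i).prodMk_nhds ((S.gcont.tendsto _).comp (hy i))
      exact (S.Φcont.tendsto (τ i, S.g (y i))).comp h1
    have h1 : Tendsto (fun k => dist (S.Φ ((q k).2 i) (S.g ((q k).1 i))) ((q k).1 (σ i))) atTop
        (𝓝 (dist (S.Φ (τ i) (S.g (y i))) (y (σ i)))) := hc.dist (hy (σ i))
    have h2 : Tendsto (fun k : ℕ => δ / 2 ^ k) atTop (𝓝 0) := by
      have : Tendsto (fun k : ℕ => δ * (1 / 2) ^ k) atTop (𝓝 (δ * 0)) :=
        (tendsto_pow_atTop_nhds_zero_of_lt_one (by norm_num) (by norm_num)).const_mul δ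
      rw [mul_zero] at this
      refine this.congr fun k => ?_
      rw [one_div, inv_pow]; rfl
    have h3 : dist (S.Φ (τ i) (S.g (y i))) (y (σ i)) ≤ 0 :=
      le_of_tendsto_of_tendsto' h1 h2 fun k => (hqP k).2.2 i
    exact dist_le_zero.mp h3

end Sys

end Q263.HR
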